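import Pool.Agent.TH684.EX.Thm

/-!
# If `P ≠ NP`, nothing can be said about the answers to polynomially many questions

Polynomial time is Mathlib's `Turing.TM2ComputableInPolyTime`, for functions on bit strings.

Let `A` be `NP`-hard, and consider `m` questions `x₁ ∈ A`, ..., `x_m ∈ A` for strings of length at
most `n`, where `m = m (n)` is any number at most polynomial in `n`, for instance `m = 1`, or
`m = n ^ 100`. Their answers form a vector in `{0, 1} ^ m`. Suppose that a polynomial-time algorithm
excludes one member of a family of polynomially many vectors: given the questions it outputs a vector
of the family which is not the vector of answers. The family is any strongly explicit one: its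
vectors have numbers, and the entries can be computed in polynomial time from the binary codes of
`m`, the number of the vector, and the position. The algorithm may use `O(log n)` bits of advice.
Then `P = NP`.

Special cases. `m = 1` without advice is the definition of `NP`-hardness, with advice it is a theorem
of Karp and Lipton. Constant `m`, or the family of all vectors for `m = O(log n)`: the approximable
sets and the hypothesis `(H3)` of `MP_8f56c4_lc`. The vectors `1 ^ c 0 ^ (m - c)`: one cannot exclude
one of the `m + 1` possible values of the number of members, nor compute this number with `⌊log₂ m⌋`
questions to any oracle (with one more question, binary search with an `NP` oracle finds it). The unit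
vectors: one cannot find an index `i` such that `x_i` is not the only member of `A` in the list,
although all indices but at most one have this property, so that a random index has it with
probability at least `1 - 1 / m`.

Proof. Let `x ↦ w` be a single-valued `NP` function. The prefixes `v` of `w` are found in a search
tree. For each seed `s` of a pairwise independent family of hash functions from strings to the
numbers of the vectors of the family, ask the questions: is the entry `i` of the vector with the
number `hash s (prefix of length j of w)` equal to one? These are `NP` questions, so they become
questions about `A`, and the vector of answers is the vector with the number `hash s v` if `v` is the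
right prefix. The algorithm excludes a number `r s`, so `v` can be discarded if `hash s v = r s`. If
`F` bounds the numbers then among more than `2 F ^ 2` strings there is always one that is discarded
for some seed. So at most `2 F ^ 2` strings survive at each level, and `w` is in a list of
polynomial length that is computed in polynomial time. The vector of the answers to parallel `NP`
questions is the value of a single-valued `NP` function once the number of positive answers is
guessed, so it has such a list too, and this implies `P = NP` by the theorem behind
`MP_8f56c4_lc.ParallelQueriesCollapse` (`Pool.Agent.H579R6.p_eq_np_of_enum`). All advice numbers and
all numbers `m` are tried.
-/

set_option autoImplicit false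

namespace Pool.Agent.Results.MP_8a52c3_lc.OneExcludedVector

open Pool.Agent.NPC Pool.Agent.TH684.EX

/-- **The exclusion theorem.** The following are equivalent: `P = NP`; one vector of some strongly
explicit family can be excluded as the vector of answers for some `NP`-hard set; one value of the
number of members can be excluded for some `NP`-hard set; the number of members can be computed with
`⌊log₂ m⌋` questions to some oracle; one can find an index `i` such that the string number `i` is not
the only member; all vectors of answers for all sets in `NP` can be distinguished from some member of
any given family. -/
theorem result : List.TFAE
    [∀ L : Set (List Bool), InNP L → InP L,
      ∃ A L : Set (List Bool), NPHard A ∧ InP L ∧ Feasible (Exclude L A),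
      ∃ A : Set (List Bool), NPHard A ∧ Feasible (ExcludeCount A),
      ∃ A : Set (List Bool), NPHard A ∧ CountQuestions A,
      ∃ A : Set (List Bool), NPHard A ∧ Feasible (NotOnly A),
      ∀ (A L : Set (List Bool)) (q : Polynomial ℕ), InNP A → InP L →
        (∀ m ≥ 1, ∃ l ≤ q.eval m, vec L m l ≠ vec L m 0) →
        ∃ X : List Bool → ℕ, PolyTime (fun z => bits (X z)) ∧ ∀ qs : List (List Bool), qs ≠ [] →
          X (bits qs) ≤ q.eval qs.length ∧ Exclude L A qs (X (bits qs))] :=
  exclusion_tfae

end Pool.Agent.Results.MP_8a52c3_lc.OneExcludedVector
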